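import Pool.Agent.W399.WP.Stm

/-!
# Labels: soundness, completeness and boundedness
-/

set_option autoImplicit false

namespace Pool.Agent.W253.WP399

open Pool.Agent.W399.WP

variable {M : Type} [CancelMonoid M] {A : Type} {φ : A → M}

theorem key (D : CFData φ) {n : List A × D.X} {W t U V : List A} (h : NodeAt D n W t)
    (hU : (n.1 ++ U, V) ∈ D.C n.2) : pr φ (W ++ U) = pr φ t * pr φ V := by
  obtain ⟨a, rfl, ha⟩ := h
  have h1 := (D.hC _ _).1 (ha _ _ hU)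
  rw [pr_append φ t V, ← List.append_assoc] at h1
  exact h1

theorem sound (D : CFData φ) {n n' : List A × D.X} {Wl Wm t t' : List A} {g : M}
    (h : NodeAt D n Wl t) (h' : NodeAt D n' (Wl ++ Wm) t') (hL : Lab D n Wm n' g) :
    pr φ t * g = pr φ t' := by
  obtain ⟨U, V, V', h1, h2, h3⟩ := hL
  rw [List.append_assoc] at h1
  have h4 := key D h h1
  have h5 := key D h' h2
  rw [← List.append_assoc] at h4
  rw [h4, h3, ← mul_assoc] at h5
  exact mul_right_cancel h5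

theorem comp (D : CFData φ) {n n' : List A × D.X} {Wl Wm t t' U V V' : List A} {g : M}
    (h : NodeAt D n Wl t) (h' : NodeAt D n' (Wl ++ Wm) t') (h1 : (n.1 ++ Wm ++ U, V) ∈ D.C n.2)
    (h2 : (n'.1 ++ U, V') ∈ D.C n'.2) (hg : pr φ t * g = pr φ t') : pr φ V = g * pr φ V' := by
  rw [List.append_assoc] at h1
  have h4 := key D h h1
  have h5 := key D h' h2
  rw [← List.append_assoc] at h4
  rw [h4, ← hg, mul_assoc] at h5
  exact mul_left_cancel h5

theorem lbl : S_LBL := by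
  intro M _ A _ φ _ D
  refine ⟨fun n n' Wl Wm t t' g h h' hL => sound D h h' hL,
    fun n n' Wl Wm U V V' t t' g h h' h1 h2 hg => ⟨U, V, V', h1, h2, comp D h h' h1 h2 hg⟩,
    fun R => ?_⟩
  have := D.finX
  have hS : {n : List A × D.X | n.1.length ≤ R}.Finite :=
    ((List.finite_length_le A R).prod (Set.finite_univ (α := D.X))).subset
      fun n hn => ⟨hn, Set.mem_univ _⟩
  have hfin : {g : M | ∃ (n n' : List A × D.X) (Wm : List A), n.1.length ≤ R ∧ n'.1.length ≤ R ∧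
      Wm.length ≤ R ∧ ∃ Wl t t' : List A, NodeAt D n Wl t ∧ NodeAt D n' (Wl ++ Wm) t' ∧
        Lab D n Wm n' g}.Finite := by
    have h1 : {g : M | ∃ (n n' : List A × D.X) (Wm : List A), n.1.length ≤ R ∧
        n'.1.length ≤ R ∧ Wm.length ≤ R ∧ ∃ Wl t t' : List A, NodeAt D n Wl t ∧
        NodeAt D n' (Wl ++ Wm) t' ∧ Lab D n Wm n' g} ⊆
        ⋃ x ∈ ({n : List A × D.X | n.1.length ≤ R} ×ˢ {n : List A × D.X | n.1.length ≤ R}) ×ˢ
          {l : List A | l.length ≤ R}, {g : M | ∃ Wl t t' : List A, NodeAt D x.1.1 Wl t ∧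
            NodeAt D x.1.2 (Wl ++ x.2) t' ∧ Lab D x.1.1 x.2 x.1.2 g} := by
      rintro g ⟨n, n', Wm, h1, h2, h3, h4⟩
      rw [Set.mem_iUnion₂]
      exact ⟨((n, n'), Wm), ⟨⟨h1, h2⟩, h3⟩, h4⟩
    refine Set.Finite.subset (((hS.prod hS).prod (List.finite_length_le A R)).biUnion
      fun x _ => Set.Subsingleton.finite ?_) h1
    rintro g ⟨Wl, t, t', h1, h2, h3⟩ g₁ ⟨Wl₁, t₁, t₁', h4, h5, h6⟩
    have h7 := sound D h4 h5 h6
    obtain ⟨U, V, V', h8, h9, h10⟩ := h3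
    have h11 := comp D h4 h5 h8 h9 h7
    rw [h10] at h11
    exact mul_right_cancel h11
  obtain ⟨R', hR'⟩ := (hfin.image (nrm φ)).bddAbove
  exact ⟨R', fun n n' Wl Wm t t' g h1 h2 h3 h4 h5 h6 =>
    hR' ⟨g, ⟨n, n', Wm, h1, h2, h3, Wl, t, t', h4, h5, h6⟩, rfl⟩⟩

end Pool.Agent.W253.WP399
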